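import Mathlib

/-!
# `m`-algebras, `m`-homomorphisms, `m`-completions and `(m, n)`-products of Boolean algebras

Throughout, `κ` is the infinite cardinal `𝔪` of the problems.
-/

namespace Pool.Agent.N612.BA

open Set Cardinal

universe u

/-- A Boolean `κ`-algebra: every subset of size at most `κ` has a join and a meet. -/
def IsMAlgebra (κ : Cardinal.{u}) (B : Type u) [BooleanAlgebra B] : Prop :=
  ∀ S : Set B, #S ≤ κ → (∃ b, IsLUB S b) ∧ ∃ b, IsGLB S b

/-- A `κ`-homomorphism: a homomorphism of Boolean algebras which preserves all existing joins and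
meets of at most `κ` elements. -/
def IsMHom {B C : Type u} [BooleanAlgebra B] [BooleanAlgebra C] (κ : Cardinal.{u})
    (h : BoundedLatticeHom B C) : Prop :=
  ∀ S : Set B, #S ≤ κ → (∀ b, IsLUB S b → IsLUB (h '' S) (h b)) ∧
    ∀ b, IsGLB S b → IsGLB (h '' S) (h b)

/-- `G` `κ`-generates `B`: the only Boolean subalgebra of `B` which contains `G` and is closed under
joins and meets (in `B`) of at most `κ` elements is `B`. -/
def MGenerates {B : Type u} [BooleanAlgebra B] (κ : Cardinal.{u}) (G : Set B) : Prop :=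
  ∀ L : BooleanSubalgebra B, G ⊆ L →
    (∀ S : Set B, S ⊆ L → #S ≤ κ → ∀ b, IsLUB S b ∨ IsGLB S b → b ∈ L) → L = ⊤

section General

variable {A B C : Type u} [BooleanAlgebra A] [BooleanAlgebra B] [BooleanAlgebra C]
  {κ : Cardinal.{u}}

theorem isGLB_compl_iff {S : Set B} {b : B} : IsGLB (compl '' S) bᶜ ↔ IsLUB S b := by
  constructor
  · intro h
    refine ⟨fun s hs => ?_, fun c hc => ?_⟩
    · exact compl_le_compl_iff_le.1 (h.1 (mem_image_of_mem _ hs))
    · refine compl_le_compl_iff_le.1 (h.2 ?_)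
      rintro _ ⟨s, hs, rfl⟩
      exact compl_le_compl (hc hs)
  · intro h
    refine ⟨?_, fun c hc => ?_⟩
    · rintro _ ⟨s, hs, rfl⟩
      exact compl_le_compl (h.1 hs)
    · rw [le_compl_comm]
      refine h.2 fun s hs => ?_
      rw [le_compl_comm]
      exact hc (mem_image_of_mem _ hs)

theorem isLUB_compl_iff {S : Set B} {b : B} : IsLUB (compl '' S) bᶜ ↔ IsGLB S b := by
  rw [← isGLB_compl_iff, compl_compl, image_image]
  simp only [compl_compl, image_id']

theorem image_compl_map (h : BoundedLatticeHom A B) (S : Set A) :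
    h '' (compl '' S) = compl '' (h '' S) := by
  rw [image_image, image_image]
  simp only [map_compl']

/-- It suffices to preserve joins. -/
theorem isMHom_of_lub {h : BoundedLatticeHom A B}
    (H : ∀ S : Set A, #S ≤ κ → ∀ b, IsLUB S b → IsLUB (h '' S) (h b)) : IsMHom κ h := by
  intro S hS
  refine ⟨H S hS, fun b hb => ?_⟩
  rw [← isLUB_compl_iff] at hb ⊢
  have h1 := H _ (mk_image_le.trans hS) _ hb
  rwa [image_compl_map, map_compl'] at h1

/-- A homomorphism with trivial kernel is injective. -/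
theorem injective_of_ker {f : BoundedLatticeHom A B} (h : ∀ a, f a = ⊥ → a = ⊥) :
    Function.Injective f := by
  have h1 : ∀ a b : A, f a = f b → a ≤ b := by
    intro a b hab
    have h2 : f (a ⊓ bᶜ) = ⊥ := by
      rw [map_inf, map_compl', hab, inf_compl_eq_bot]
    rw [← compl_compl b]
    exact le_compl_iff_disjoint_right.2 (disjoint_iff.2 (h _ h2))
  intro a b hab
  exact le_antisymm (h1 a b hab) (h1 b a hab.symm)

/-- It suffices that joins exist. -/
theorem isMAlgebra_of_lub (H : ∀ S : Set B, #S ≤ κ → ∃ b, IsLUB S b) : IsMAlgebra κ B := by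
  intro S hS
  refine ⟨H S hS, ?_⟩
  obtain ⟨b, hb⟩ := H (compl '' S) (mk_image_le.trans hS)
  refine ⟨bᶜ, ?_⟩
  rw [← isLUB_compl_iff, compl_compl]
  exact hb

end General

/-! ### The least `κ`-complete subalgebra containing a set -/

section MSub

variable {R : Type u} [BooleanAlgebra R]

/-- A subalgebra closed under the joins of at most `κ` elements. -/
def MClosed (κ : Cardinal.{u}) (L : BooleanSubalgebra R) : Prop :=
  ∀ S : Set R, S ⊆ L → #S ≤ κ → ∀ b, IsLUB S b → b ∈ L

/-- The least subalgebra which contains `G` and is closed under joins of at most `κ` elements. -/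
def msub (κ : Cardinal.{u}) (G : Set R) : BooleanSubalgebra R :=
  sInf {L | G ⊆ L ∧ MClosed κ L}

variable {κ : Cardinal.{u}} {G : Set R}

theorem subset_msub : G ⊆ msub κ G := by
  intro x hx
  rw [msub, SetLike.mem_coe, BooleanSubalgebra.mem_sInf]
  rintro L ⟨hL, -⟩
  exact hL hx

theorem mclosed_msub : MClosed κ (msub κ G) := by
  intro S hS hκ b hb
  rw [msub, BooleanSubalgebra.mem_sInf]
  rintro L ⟨hL, hL2⟩
  refine hL2 S (fun s hs => ?_) hκ b hb
  have := hS hs
  rw [msub, SetLike.mem_coe, BooleanSubalgebra.mem_sInf] at this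
  exact this L ⟨hL, hL2⟩

theorem msub_le {L : BooleanSubalgebra R} (h1 : G ⊆ L) (h2 : MClosed κ L) : msub κ G ≤ L :=
  sInf_le ⟨h1, h2⟩

variable (hR : ∀ S : Set R, ∃ b, IsLUB S b)

include hR

/-- Joins in the subalgebra agree with joins in the big algebra. -/
theorem isLUB_msub_iff (S : Set (msub κ G)) (hS : #S ≤ κ) (b : msub κ G) :
    IsLUB S b ↔ IsLUB (Subtype.val '' S) (b : R) := by
  constructor
  · intro h
    obtain ⟨c, hc⟩ := hR (Subtype.val '' S)
    have hcm : c ∈ msub κ G := mclosed_msub (Subtype.val '' S)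
      (by rintro _ ⟨s, -, rfl⟩; exact s.2) (mk_image_le.trans hS) c hc
    have h1 : IsLUB S ⟨c, hcm⟩ := by
      refine ⟨fun s hs => ?_, fun d hd => ?_⟩
      · exact hc.1 (mem_image_of_mem _ hs)
      · refine hc.2 ?_
        rintro _ ⟨s, hs, rfl⟩
        exact hd hs
    rw [h.unique h1]
    exact hc
  · intro h
    refine ⟨fun s hs => ?_, fun d hd => ?_⟩
    · exact h.1 (mem_image_of_mem _ hs)
    · refine h.2 ?_
      rintro _ ⟨s, hs, rfl⟩
      exact hd hs

theorem isMHom_subtype : IsMHom κ (msub κ G).subtype :=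
  isMHom_of_lub fun S hS b hb => (isLUB_msub_iff hR S hS b).1 hb

theorem isMAlgebra_msub : IsMAlgebra κ (msub κ G) := by
  apply isMAlgebra_of_lub
  intro S hS
  obtain ⟨c, hc⟩ := hR (Subtype.val '' S)
  have hcm : c ∈ msub κ G := mclosed_msub (Subtype.val '' S)
    (by rintro _ ⟨s, -, rfl⟩; exact s.2) (mk_image_le.trans hS) c hc
  exact ⟨⟨c, hcm⟩, (isLUB_msub_iff hR S hS ⟨c, hcm⟩).2 hc⟩

theorem mgenerates_msub : MGenerates κ (Subtype.val ⁻¹' G : Set (msub κ G)) := by
  intro L hL hclosed
  have h1 : msub κ G ≤ L.map (msub κ G).subtype := by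
    apply msub_le
    · intro x hx
      refine ⟨⟨x, subset_msub hx⟩, hL hx, rfl⟩
    · intro S hS hκ b hb
      have hSm : S ⊆ msub κ G := by
        intro s hs
        obtain ⟨t, -, rfl⟩ := hS hs
        exact t.2
      have hbm : b ∈ msub κ G := mclosed_msub S hSm hκ b hb
      refine ⟨⟨b, hbm⟩, ?_, rfl⟩
      have hS' : Subtype.val '' (Subtype.val ⁻¹' S : Set (msub κ G)) = S := by
        rw [image_preimage_eq_inter_range, inter_eq_left]
        intro s hs
        exact ⟨⟨s, hSm hs⟩, rfl⟩
      refine hclosed (Subtype.val ⁻¹' S) ?_ ?_ _ (Or.inl ?_)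
      · intro s hs
        obtain ⟨t, ht, hts⟩ := hS hs
        have : t = s := Subtype.ext hts
        rw [← this]; exact ht
      · rw [← mk_image_eq (f := (Subtype.val : msub κ G → R)) Subtype.val_injective, hS']
        exact hκ
      · rw [isLUB_msub_iff hR]
        · rw [hS']; exact hb
        · rw [← mk_image_eq (f := (Subtype.val : msub κ G → R)) Subtype.val_injective, hS']
          exact hκ
  rw [eq_top_iff]
  rintro x -
  obtain ⟨y, hy, hyx⟩ := h1 x.2
  have : y = x := Subtype.ext hyx
  rw [← this]; exact hy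

end MSub

end Pool.Agent.N612.BA
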