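import Mathlib

/-!
# The field of sets used as a factor

`X D` is the set of all pairs `(x, o)` with `x : ℕ → ℕ` and `o` either `none` (a branch) or
`some (ℓ, d)` (an isolated point attached at the node `x | ℓ`).  The field `fld D` of subsets of
`ℕ → X D` is generated by the sets `{z | z n ∈ val m k}` and the sets `{z | z n = p}` with `p` an
isolated point.
-/

namespace Pool.Agent.N612.BA

open Set Cardinal

universe u

/-- The points: branches `(x, none)` and isolated points `(x, some (ℓ, d))`. -/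
abbrev Pt (D : Type u) : Type u := (ℕ → ℕ) × Option (ℕ × D)

/-- Points whose `m`-th value is defined and equal to `k`. -/
def val {D : Type u} (m k : ℕ) : Set (Pt D) :=
  {p | p.1 m = k ∧ ∀ q ∈ p.2, m < q.1}

/-- Indices of the generators. -/
abbrev Gen (D : Type u) : Type u := ℕ × ((ℕ × ℕ) ⊕ ((ℕ → ℕ) × (ℕ × D)))

/-- The generators. -/
def cyl {D : Type u} : Gen D → Set (ℕ → Pt D)
  | (n, Sum.inl (m, k)) => {z | z n ∈ val m k}
  | (n, Sum.inr (x, q)) => {z | z n = (x, some q)}

/-- The field of sets. -/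
def fld (D : Type u) : BooleanSubalgebra (Set (ℕ → Pt D)) := BooleanSubalgebra.closure (range cyl)

/-- Elements of the closure depend only on finitely many generators. -/
theorem exists_support {ι Ω : Type*} {g : ι → Set Ω} {a : Set Ω}
    (ha : a ∈ BooleanSubalgebra.closure (range g)) :
    ∃ F : Finset ι, ∀ z z', (∀ j ∈ F, (z ∈ g j ↔ z' ∈ g j)) → (z ∈ a ↔ z' ∈ a) := by
  classical
  induction ha using BooleanSubalgebra.closure_bot_sup_induction with
  | mem x hx =>
    obtain ⟨j, rfl⟩ := hx
    exact ⟨{j}, fun z z' h => h j (Finset.mem_singleton_self j)⟩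
  | bot => exact ⟨∅, fun z z' _ => Iff.rfl⟩
  | sup x hx y hy ihx ihy =>
    obtain ⟨F, hF⟩ := ihx
    obtain ⟨G, hG⟩ := ihy
    refine ⟨F ∪ G, fun z z' h => ?_⟩
    have h1 := hF z z' fun j hj => h j (Finset.mem_union_left _ hj)
    have h2 := hG z z' fun j hj => h j (Finset.mem_union_right _ hj)
    exact or_congr h1 h2
  | compl x hx ihx =>
    obtain ⟨F, hF⟩ := ihx
    exact ⟨F, fun z z' h => not_congr (hF z z' h)⟩

variable {D : Type u}

/-- `F` is a support of `a`. -/
def IsSupp (F : Finset (Gen D)) (a : Set (ℕ → Pt D)) : Prop :=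
  ∀ z z', (∀ j ∈ F, (z ∈ cyl j ↔ z' ∈ cyl j)) → (z ∈ a ↔ z' ∈ a)

theorem exists_isSupp (a : fld D) : ∃ F : Finset (Gen D), IsSupp F (a : Set (ℕ → Pt D)) :=
  exists_support a.2

/-- A support of an element. -/
noncomputable def supp (a : fld D) : Finset (Gen D) := (exists_isSupp a).choose

theorem supp_spec (a : fld D) : IsSupp (supp a) (a : Set (ℕ → Pt D)) := (exists_isSupp a).choose_spec

/-- The labels which occur in a finite set of generators. -/
def labels (F : Finset (Gen D)) : Set D := {d | ∃ n x l, ((n, Sum.inr (x, (l, d))) : Gen D) ∈ F}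

theorem labels_finite (F : Finset (Gen D)) : (labels F).Finite := by
  classical
  let f : Gen D → Set D := fun g => match g with
    | (_, Sum.inl _) => ∅
    | (_, Sum.inr (_, q)) => {q.2}
  have : labels F ⊆ ⋃ g ∈ F, f g := by
    rintro d ⟨n, x, l, h⟩
    rw [mem_iUnion₂]
    exact ⟨_, h, rfl⟩
  refine Set.Finite.subset ?_ this
  refine F.finite_toSet.biUnion ?_
  rintro ⟨n, g⟩ -
  rcases g with g | g
  · exact finite_empty
  · exact finite_singleton _

/-- From a branch to isolated points. -/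
theorem agree_isolated (F : Finset (Gen D)) : ∃ L : ℕ, ∀ l, L ≤ l → ∀ d, d ∉ labels F →
    ∀ (z : ℕ → Pt D) (n : ℕ) (x : ℕ → ℕ), z n = (x, none) → ∀ j ∈ F,
      (z ∈ cyl j ↔ Function.update z n (x, some (l, d)) ∈ cyl j) := by
  classical
  refine ⟨F.sup fun g => match g with
    | (_, Sum.inl (m, _)) => m + 1
    | (_, Sum.inr _) => 0, ?_⟩
  intro l hl d hd z n x hz j hj
  have hle := (Finset.le_sup (f := fun g : Gen D => match g with
    | (_, Sum.inl (m, _)) => m + 1
    | (_, Sum.inr _) => 0) hj).trans hl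
  rcases j with ⟨n', (⟨m, k⟩ | ⟨x', q⟩)⟩
  · simp only at hle
    simp only [cyl, Set.mem_ofPred_eq]
    by_cases h : n' = n
    · subst h
      rw [Function.update_self, hz]
      simp only [val, Set.mem_ofPred_eq, Option.mem_def]
      constructor
      · rintro ⟨h1, -⟩
        refine ⟨h1, fun q hq => ?_⟩
        rw [Option.some.injEq] at hq
        rw [← hq]
        exact hle
      · rintro ⟨h1, -⟩
        exact ⟨h1, fun q hq => by simp at hq⟩
    · rw [Function.update_of_ne h]
  · simp only [cyl, Set.mem_ofPred_eq]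
    by_cases h : n' = n
    · subst h
      rw [Function.update_self, hz]
      constructor
      · intro h1; simp at h1
      · intro h1
        exfalso
        apply hd
        simp only [Prod.mk.injEq, Option.some.injEq] at h1
        obtain ⟨h2, h3⟩ := h1
        exact ⟨n', x', l, by rw [h3]; exact hj⟩
    · rw [Function.update_of_ne h]

/-- A bound for the value in a generator. -/
def kbound : Gen D → ℕ
  | (_, Sum.inl (_, k)) => k + 1
  | (_, Sum.inr _) => 0

/-- From an isolated point to branches. -/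
theorem agree_branch (F : Finset (Gen D)) (l : ℕ) (d : D) (hd : d ∉ labels F)
    (z : ℕ → Pt D) (n : ℕ) (x : ℕ → ℕ) (hz : z n = (x, some (l, d))) :
    ∃ y : ℕ → ℕ, ∀ j ∈ F, (z ∈ cyl j ↔ Function.update z n (y, none) ∈ cyl j) := by
  classical
  let K : ℕ := F.sup kbound
  refine ⟨fun m => if m < l then x m else K, ?_⟩
  intro j hj
  have hle : kbound j ≤ K := Finset.le_sup hj
  rcases j with ⟨n', (⟨m, k⟩ | ⟨x', q⟩)⟩
  · simp only [kbound] at hle
    simp only [cyl, Set.mem_ofPred_eq]
    by_cases h : n' = n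
    · subst h
      rw [Function.update_self, hz]
      simp only [val, Set.mem_ofPred_eq, Option.mem_def]
      constructor
      · rintro ⟨h1, h2⟩
        have h3 := h2 _ rfl
        refine ⟨?_, fun q hq => by simp at hq⟩
        rw [if_pos h3]; exact h1
      · rintro ⟨h1, -⟩
        split_ifs at h1 with h2
        · refine ⟨h1, fun q hq => ?_⟩
          rw [Option.some.injEq] at hq
          rw [← hq]; exact h2
        · omega
    · rw [Function.update_of_ne h]
  · simp only [cyl, Set.mem_ofPred_eq]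
    by_cases h : n' = n
    · subst h
      rw [Function.update_self, hz]
      constructor
      · intro h1
        exfalso
        apply hd
        simp only [Prod.mk.injEq, Option.some.injEq] at h1
        obtain ⟨h2, h3⟩ := h1
        exact ⟨n', x', l, by rw [h3]; exact hj⟩
      · intro h1; simp at h1
    · rw [Function.update_of_ne h]

/-- A new coordinate. -/
theorem agree_new (F : Finset (Gen D)) : ∃ n : ℕ, ∀ (z : ℕ → Pt D) (p : Pt D), ∀ j ∈ F,
    (z ∈ cyl j ↔ Function.update z n p ∈ cyl j) := by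
  classical
  refine ⟨(F.sup fun g => g.1) + 1, ?_⟩
  intro z p j hj
  have hle : j.1 ≤ F.sup fun g => g.1 := Finset.le_sup (f := fun g : Gen D => g.1) hj
  have hne : j.1 ≠ (F.sup fun g => g.1) + 1 := by omega
  rcases j with ⟨n', (⟨m, k⟩ | ⟨x', q⟩)⟩
  · simp only [cyl, Set.mem_ofPred_eq]
    rw [Function.update_of_ne hne]
  · simp only [cyl, Set.mem_ofPred_eq]
    rw [Function.update_of_ne hne]

/-- The set of all `z` whose `n`-th coordinate is a branch. -/
def branchAt (n : ℕ) : Set (ℕ → Pt D) := {z | (z n).2 = none}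

/-- Every nonempty element of the field contains a point with a branch among its coordinates. -/
theorem exists_branch (a : fld D) (ha : (a : Set (ℕ → Pt D)).Nonempty) :
    ∃ n, ((a : Set (ℕ → Pt D)) ∩ branchAt n).Nonempty := by
  obtain ⟨z, hz⟩ := ha
  obtain ⟨n, hn⟩ := agree_new (supp a)
  refine ⟨n, Function.update z n (fun _ => 0, none), ?_, ?_⟩
  · exact (supp_spec a _ _ (hn z _)).1 hz
  · simp [branchAt]

/-- Adding an isolated point as the coordinate `n`. -/
def addPt (c : fld D) (n : ℕ) (x : ℕ → ℕ) (q : ℕ × D) : fld D :=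
  c ⊓ ⟨cyl (n, Sum.inr (x, q)), BooleanSubalgebra.subset_closure (mem_range_self _)⟩

theorem mem_addPt {c : fld D} {n : ℕ} {x : ℕ → ℕ} {q : ℕ × D} {z : ℕ → Pt D} :
    z ∈ (addPt c n x q : Set (ℕ → Pt D)) ↔ z ∈ (c : Set (ℕ → Pt D)) ∧ z n = (x, some q) := Iff.rfl

/-- The crucial property: at most `κ` elements of the field which together miss all points of `c`
with a branch at `n` miss a nonempty part of `c`. -/
theorem exists_isolated {κ : Cardinal.{u}} (hκ : ℵ₀ ≤ κ) (hD : κ < #D) (c : fld D) (n : ℕ)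
    (hc : ((c : Set (ℕ → Pt D)) ∩ branchAt n).Nonempty) (S : Set (fld D)) (hS : #S ≤ κ)
    (hdisj : ∀ s ∈ S, ∀ z ∈ (c : Set (ℕ → Pt D)), z ∈ branchAt n → z ∉ (s : Set (ℕ → Pt D))) :
    ∃ c' : fld D, (c' : Set (ℕ → Pt D)).Nonempty ∧
      (c' : Set (ℕ → Pt D)) ⊆ c ∧
      ∀ s ∈ S, ∀ z ∈ (c' : Set (ℕ → Pt D)), z ∉ (s : Set (ℕ → Pt D)) := by
  classical
  obtain ⟨z, hz, hzb⟩ := hc
  -- an unused label
  obtain ⟨d, hd1, hd2⟩ : ∃ d, d ∉ labels (supp c) ∧ ∀ s ∈ S, d ∉ labels (supp s) := by
    have h1 : #(labels (supp c) ∪ ⋃ s ∈ S, labels (supp s) : Set D) ≤ κ := by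
      refine (mk_union_le _ _).trans ?_
      refine add_le_of_le hκ ?_ ?_
      · exact (lt_aleph0_iff_set_finite.2 (labels_finite _)).le.trans hκ
      · rw [biUnion_eq_iUnion]
        refine (mk_iUnion_le _).trans ?_
        refine (mul_le_mul' hS (ciSup_le' fun s => ?_)).trans (mul_eq_self hκ).le
        exact (lt_aleph0_iff_set_finite.2 (labels_finite _)).le.trans hκ
    have h2 : (labels (supp c) ∪ ⋃ s ∈ S, labels (supp s) : Set D) ≠ Set.univ := by
      intro h
      rw [h, mk_univ] at h1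
      exact absurd h1 (not_le.2 hD)
    obtain ⟨d, hd⟩ := (ne_univ_iff_exists_notMem _).1 h2
    simp only [mem_union, mem_iUnion, not_or, not_exists] at hd
    exact ⟨d, hd.1, fun s hs => hd.2 s hs⟩
  obtain ⟨L, hL⟩ := agree_isolated (supp c)
  have hzn : z n = ((z n).1, none) := Prod.ext rfl hzb
  refine ⟨addPt c n (z n).1 (L, d), ?_, ?_, ?_⟩
  · refine ⟨Function.update z n ((z n).1, some (L, d)), ?_⟩
    rw [mem_addPt]
    refine ⟨(supp_spec c _ _ (hL L le_rfl d hd1 z n _ hzn)).1 hz, ?_⟩
    rw [Function.update_self]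
  · intro w hw
    exact (mem_addPt.1 hw).1
  · intro s hs w hw hws
    obtain ⟨hwc, hwn⟩ := mem_addPt.1 hw
    have hd3 : d ∉ labels (supp c ∪ supp s) := by
      rintro ⟨n', x', l', h⟩
      rw [Finset.mem_union] at h
      rcases h with h | h
      · exact hd1 ⟨n', x', l', h⟩
      · exact hd2 s hs ⟨n', x', l', h⟩
    obtain ⟨y, hy⟩ := agree_branch (supp c ∪ supp s) L d hd3 w n (z n).1 hwn
    have h1 := (supp_spec c _ _ fun j hj => hy j (Finset.mem_union_left _ hj)).1 hwc
    have h2 := (supp_spec s _ _ fun j hj => hy j (Finset.mem_union_right _ hj)).1 hws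
    exact hdisj s hs _ h1 (by simp [branchAt]) h2

/-- Every nonempty element of the field has a nonempty part which misses all `z` for which the `m`-th
value of the `n`-th coordinate is defined. -/
theorem exists_undefined (hD : ℵ₀ < #D) (c : fld D) (hc : (c : Set (ℕ → Pt D)).Nonempty) (n : ℕ) :
    ∃ (m : ℕ) (c' : fld D), (c' : Set (ℕ → Pt D)).Nonempty ∧ (c' : Set (ℕ → Pt D)) ⊆ c ∧
      ∀ k, ∀ z ∈ (c' : Set (ℕ → Pt D)), z n ∉ val m k := by
  classical
  obtain ⟨z, hz⟩ := hc
  cases hq : (z n).2 with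
  | some q =>
    refine ⟨q.1, addPt c n (z n).1 q, ⟨z, mem_addPt.2 ⟨hz, Prod.ext rfl hq⟩⟩, ?_, ?_⟩
    · intro w hw
      exact (mem_addPt.1 hw).1
    · intro k w hw hk
      rw [(mem_addPt.1 hw).2] at hk
      exact lt_irrefl _ (hk.2 q rfl)
  | none =>
    obtain ⟨d, hd⟩ : ∃ d, d ∉ labels (supp c) := by
      by_contra hcon
      push Not at hcon
      have h1 : labels (supp c) = Set.univ := eq_univ_of_forall hcon
      have h2 := lt_aleph0_iff_set_finite.2 (labels_finite (supp c))
      rw [h1, mk_univ] at h2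
      exact absurd (hD.trans h2) (lt_irrefl _)
    obtain ⟨L, hL⟩ := agree_isolated (supp c)
    have hzn : z n = ((z n).1, none) := Prod.ext rfl hq
    refine ⟨L, addPt c n (z n).1 (L, d), ⟨Function.update z n ((z n).1, some (L, d)), ?_⟩, ?_, ?_⟩
    · rw [mem_addPt]
      refine ⟨(supp_spec c _ _ (hL L le_rfl d hd z n _ hzn)).1 hz, ?_⟩
      rw [Function.update_self]
    · intro w hw
      exact (mem_addPt.1 hw).1
    · intro k w hw hk
      rw [(mem_addPt.1 hw).2] at hk
      exact lt_irrefl _ (hk.2 _ rfl)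

end Pool.Agent.N612.BA
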