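import Pool.Agent.N612.BA.Product

/-!
# The main theorem on products
-/

namespace Pool.Agent.N612.BA

open Set Cardinal

universe u

theorem main (κ μ : Cardinal.{u}) (hκ : ℵ₀ ≤ κ) (hμ : ℵ₀ ≤ μ) (hμκ : ∀ c < μ, c ≤ κ)
    (T : Type u) (t₀ : T) :
    ∃ (A : Type u) (_ : BooleanAlgebra A), Nontrivial A ∧
      (∃ (B : Type u) (_ : BooleanAlgebra B) (i : T → BoundedLatticeHom A B),
        IsProduct κ μ i ∧ IsDenseProduct μ i) ∧
      ∃ (B' : Type u) (_ : BooleanAlgebra B') (i' : T → BoundedLatticeHom A B'),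
        IsProduct κ μ i' ∧
        ∀ (B : Type u) (_ : BooleanAlgebra B) (i : T → BoundedLatticeHom A B),
          Function.Injective (i t₀) →
          (∀ T' : Set T, #T' < μ → ∀ a : T → A, (∀ t ∈ T', a t ≠ ⊥) →
            ∃ m, IsGLB ((fun t => i t (a t)) '' T') m ∧ m ≠ ⊥) →
          IsDenseProduct μ i →
          ¬ ∃ h : BoundedLatticeHom B' B, IsMHom κ h ∧ ∀ t a, h (i' t a) = i t a := by
  have : Fact (ℵ₀ ≤ μ) := ⟨hμ⟩
  let D : Type u := (Order.succ κ).out
  have hD : κ < #D := by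
    rw [mk_out]
    exact Order.lt_succ κ
  refine ⟨fld D, inferInstance, ?_, ?_, ?_⟩
  · refine ⟨⊤, ⊥, ?_⟩
    exact ne_bot_of_nonempty ⟨fun _ => (fun _ => 0, none), trivial⟩
  · exact ⟨alg κ (emb μ (allW D T)), inferInstance, cod κ (emb μ (allW D T)),
      isProduct_cod hκ hμκ good_allW indep_allW, isDenseProduct_cod hμκ⟩
  · have hP := isProduct_cod (μ := μ) hκ hμκ (good_brW hκ hD t₀) (indep_brW t₀)
    refine ⟨alg κ (emb μ (brW D t₀)), inferInstance, cod κ (emb μ (brW D t₀)), hP, ?_⟩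
    intro B _ i hinj hindep hdense
    have hcount : ∀ f : ℕ → alg κ (emb μ (brW D t₀)), #(range f) ≤ κ := fun f =>
      (countable_range _).le_aleph0.trans hκ
    choose u hu using fun n m => (hP.isMAlgebra
      (range fun k => cod κ (emb μ (brW D t₀)) t₀ (cylE D n m k)) (hcount _)).1
    choose e he using fun n => (hP.isMAlgebra (range (u n)) (hcount _)).2
    exact no_hom hκ (hκ.trans_lt hD) t₀ hinj hindep hdense hu he (isLUB_top hκ t₀ hu he)

/-! ### Finite meets -/

theorem isGLB_inf {T : Type u} {B : Type u} [BooleanAlgebra B] (F : Finset T) (f : T → B) :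
    IsGLB (f '' (F : Set T)) (F.inf f) := by
  refine ⟨?_, ?_⟩
  · rintro _ ⟨t, ht, rfl⟩
    exact Finset.inf_le ht
  · intro c hc
    exact Finset.le_inf fun t ht => hc ⟨t, ht, rfl⟩

end Pool.Agent.N612.BA
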