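import Pool.Agent.N612.BA.Space

/-!
# The two products
-/

namespace Pool.Agent.N612.BA

open Set Cardinal TopologicalSpace

universe u

section Cod

variable {R : Type u} [BooleanAlgebra R] {T : Type u} {A : T → Type u}
  [∀ t, BooleanAlgebra (A t)] (κ : Cardinal.{u}) (i : ∀ t, BoundedLatticeHom (A t) R)

/-- The `κ`-subalgebra generated by the images. -/
def alg : BooleanSubalgebra R := msub κ (⋃ t, range (i t))

/-- The homomorphisms with restricted codomain. -/
def cod (t : T) : BoundedLatticeHom (A t) (alg κ i) where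
  toFun a := ⟨i t a, subset_msub (mem_iUnion.2 ⟨t, mem_range_self a⟩)⟩
  map_sup' a b := Subtype.ext (map_sup (i t) a b)
  map_inf' a b := Subtype.ext (map_inf (i t) a b)
  map_top' := Subtype.ext (map_top (i t))
  map_bot' := Subtype.ext (map_bot (i t))

variable {κ i}

theorem coe_cod (t : T) (a : A t) : (cod κ i t a : R) = i t a := rfl

theorem cod_injective {t : T} (h : Function.Injective (i t)) :
    Function.Injective (cod κ i t) := fun _ _ hab => h (congrArg Subtype.val hab)

theorem image_cod (t : T) (S : Set (A t)) : Subtype.val '' (cod κ i t '' S) = i t '' S := by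
  rw [image_image]; rfl

theorem mgenerates_cod (hR : ∀ S : Set R, ∃ b, IsLUB S b) :
    MGenerates κ (⋃ t, range (cod κ i t)) := by
  have h1 : (⋃ t, range (cod κ i t)) =
      (Subtype.val ⁻¹' (⋃ t, range (i t)) : Set (msub κ (⋃ t, range (i t)))) := by
    ext x
    constructor
    · intro hx
      obtain ⟨t, a, rfl⟩ := mem_iUnion.1 hx
      exact mem_iUnion.2 ⟨t, a, rfl⟩
    · intro hx
      obtain ⟨t, a, ha⟩ := mem_iUnion.1 (mem_preimage.1 hx)
      exact mem_iUnion.2 ⟨t, a, Subtype.ext ha⟩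
  rw [h1]
  exact mgenerates_msub hR

theorem isMHom_cod (hR : ∀ S : Set R, ∃ b, IsLUB S b) {t : T} (h : IsMHom κ (i t)) :
    IsMHom κ (cod κ i t) := by
  apply isMHom_of_lub
  intro S hS a ha
  have h1 := (h S hS).1 a ha
  rw [← image_cod] at h1
  exact (isLUB_msub_iff hR (cod κ i t '' S) (mk_image_le.trans hS) (cod κ i t a)).2 h1

end Cod

/-- A `(κ, < μ)`-product: `B` is a `κ`-algebra, the `i t` are injective `κ`-homomorphisms, the images
are `< μ`-independent and generate `B`. -/
structure IsProduct {T : Type u} {A : T → Type u} [∀ t, BooleanAlgebra (A t)]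
    {B : Type u} [BooleanAlgebra B] (κ μ : Cardinal.{u})
    (i : ∀ t, BoundedLatticeHom (A t) B) : Prop where
  isMAlgebra : IsMAlgebra κ B
  injective : ∀ t, Function.Injective (i t)
  isMHom : ∀ t, IsMHom κ (i t)
  indep : ∀ T' : Set T, #T' < μ → ∀ a : ∀ t, A t, (∀ t ∈ T', a t ≠ ⊥) →
    ∃ m, IsGLB ((fun t => i t (a t)) '' T') m ∧ m ≠ ⊥
  generates : MGenerates κ (⋃ t, range (i t))

/-- The nonzero meets of fewer than `μ` elements of different factors are dense. -/
def IsDenseProduct {T : Type u} {A : T → Type u} [∀ t, BooleanAlgebra (A t)]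
    {B : Type u} [BooleanAlgebra B] (μ : Cardinal.{u})
    (i : ∀ t, BoundedLatticeHom (A t) B) : Prop :=
  ∀ b : B, b ≠ ⊥ → ∃ (T' : Set T) (a : ∀ t, A t) (m : B), #T' < μ ∧
    IsGLB ((fun t => i t (a t)) '' T') m ∧ m ≠ ⊥ ∧ m ≤ b

variable {D T : Type u} {N : Type} {κ μ : Cardinal.{u}} [hμ : Fact (ℵ₀ ≤ μ)]
  {W : N → Set (T → ℕ → Pt D)}

theorem nonempty_of_ne_bot {a : fld D} (ha : a ≠ ⊥) : (a : Set (ℕ → Pt D)).Nonempty := by
  rw [nonempty_iff_ne_empty]
  intro h
  exact ha (Subtype.ext h)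

theorem ne_bot_of_nonempty {a : fld D} (ha : (a : Set (ℕ → Pt D)).Nonempty) : a ≠ ⊥ := by
  rintro rfl
  exact not_nonempty_empty ha

/-- A point of a box belongs to the meet. -/
theorem mem_glb (hμκ : ∀ c < μ, c ≤ κ) {c : T → fld D} (hc : Small μ c) {T' : Set T}
    (hT' : #T' < μ) {m : alg κ (emb μ W)}
    (hm : IsGLB ((fun t => cod κ (emb μ W) t (c t)) '' T') m) {p : Sp μ W} (hp : InBox c p.pt) :
    p ∈ (m : RO (Sp μ W)).set := by
  have hκ' : #((fun t => cod κ (emb μ W) t (c t)) '' T' : Set (alg κ (emb μ W))) ≤ κ :=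
    mk_image_le.trans (hμκ _ hT')
  have h1 := (isMHom_subtype (κ := κ) (G := ⋃ t, range (emb μ W t)) RO.exists_isLUB _ hκ').2 m hm
  have h2 : RO.reg {p : Sp μ W | InBox c p.pt} (isOpen_box hc) ≤
      (msub κ (⋃ t, range (emb μ W t))).subtype m := by
    apply h1.2
    rintro _ ⟨_, ⟨t, -, rfl⟩, rfl⟩
    apply RO.reg_le
    intro q hq
    exact hq t
  exact h2 (RO.subset_reg (isOpen_box hc) hp)

theorem isProduct_cod (hκ : ℵ₀ ≤ κ) (hμκ : ∀ c < μ, c ≤ κ) (hW : Good κ W) (hI : Indep W) :
    IsProduct κ μ (cod κ (emb μ W)) where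
  isMAlgebra := isMAlgebra_msub RO.exists_isLUB
  injective t := cod_injective (emb_injective hI t)
  isMHom t := isMHom_cod RO.exists_isLUB (isMHom_emb hκ hW t)
  indep := by
    classical
    intro T' hT' a ha
    have hκ' : #((fun t => cod κ (emb μ W) t (a t)) '' T' : Set (alg κ (emb μ W))) ≤ κ :=
      mk_image_le.trans (hμκ _ hT')
    obtain ⟨m, hm⟩ := (isMAlgebra_msub (κ := κ) (G := ⋃ t, range (emb μ W t))
      RO.exists_isLUB _ hκ').2
    refine ⟨m, hm, ?_⟩
    let c : T → fld D := fun t => if t ∈ T' then a t else ⊤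
    have hcsub : {t | c t ≠ ⊤} ⊆ T' := by
      intro t ht
      by_contra h
      apply ht
      simp only [c, if_neg h]
    have hc : Small μ c := lt_of_le_of_lt (mk_le_mk_of_subset hcsub) hT'
    obtain ⟨n, w, hw, hb⟩ := hI c (by
      intro t
      simp only [c]
      split_ifs with h
      · exact nonempty_of_ne_bot (ha t h)
      · obtain ⟨n, w, hw, hb⟩ := hI (fun _ => ⊤) (fun _ => ⟨fun _ => (fun _ => 0, none), trivial⟩)
        exact ⟨w t, trivial⟩)
    have hset : (fun t => cod κ (emb μ W) t (a t)) '' T' =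
        (fun t => cod κ (emb μ W) t (c t)) '' T' := by
      apply image_congr
      intro t ht
      simp only [c, if_pos ht]
    rw [hset] at hm
    have h1 := mem_glb hμκ hc hT' hm (p := ⟨n, w, hw⟩) hb
    intro h2
    rw [h2] at h1
    exact h1
  generates := mgenerates_cod RO.exists_isLUB

theorem isDenseProduct_cod (hμκ : ∀ c < μ, c ≤ κ) {W : Unit → Set (T → ℕ → Pt D)} :
    IsDenseProduct μ (cod κ (emb μ W)) := by
  intro b hb
  have hb' : (b : RO (Sp μ W)) ≠ ⊥ := fun h => hb (Subtype.ext h)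
  obtain ⟨p, hp⟩ := RO.nonempty hb'
  obtain ⟨c, hc, hcp, hcb⟩ := isOpen_sp.1 (RO.isOpen (b : RO (Sp μ W))) p hp
  have hT' : #{t // c t ≠ ⊤} < μ := hc
  have hκ' : #((fun t => cod κ (emb μ W) t (c t)) '' {t | c t ≠ ⊤} : Set (alg κ (emb μ W))) ≤ κ :=
    mk_image_le.trans (hμκ _ hT')
  obtain ⟨m, hm⟩ := (isMAlgebra_msub (κ := κ) (G := ⋃ t, range (emb μ W t))
    RO.exists_isLUB _ hκ').2
  refine ⟨{t | c t ≠ ⊤}, c, m, hT', hm, ?_, ?_⟩
  · have h1 := mem_glb hμκ hc hT' hm hcp
    intro h2
    rw [h2] at h1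
    exact h1
  · change (m : RO (Sp μ W)) ≤ (b : RO (Sp μ W))
    intro q hq
    refine hcb q rfl fun t => ?_
    by_cases h : c t = ⊤
    · rw [h]; trivial
    · have h1 : m ≤ cod κ (emb μ W) t (c t) := hm.1 ⟨t, h, rfl⟩
      exact h1 hq

/-! ### The two families `W` -/

/-- Everything. -/
def allW (D T : Type u) : Unit → Set (T → ℕ → Pt D) := fun _ => Set.univ

/-- The `n`-th coordinate at `t₀` is a branch. -/
def brW (D : Type u) {T : Type u} (t₀ : T) : ℕ → Set (T → ℕ → Pt D) :=
  fun n => {w | w t₀ ∈ branchAt n}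

theorem good_allW : Good κ (allW D T) := by
  classical
  intro n c w _ hc t S _ hS
  refine ⟨c t, ⟨w t, hc t⟩, fun s hs z hz hzs => ?_⟩
  refine hS s hs (Function.update w t z) trivial ?_ (by rwa [Function.update_self])
  intro t'
  by_cases h : t' = t
  · subst h
    rwa [Function.update_self]
  · rw [Function.update_of_ne h]
    exact hc t'

theorem indep_allW : Indep (allW D T) := by
  intro c hc
  choose z hz using hc
  exact ⟨(), z, trivial, hz⟩

theorem good_brW (hκ : ℵ₀ ≤ κ) (hD : κ < #D) (t₀ : T) : Good κ (brW D t₀) := by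
  classical
  intro n c w hw hc t S hSκ hS
  by_cases ht : t = t₀
  · subst ht
    obtain ⟨c', h1, -, h3⟩ := exists_isolated hκ hD (c t) n ⟨w t, hc t, hw⟩ S hSκ (by
      intro s hs z hz hzb hzs
      refine hS s hs (Function.update w t z) ?_ ?_ (by rwa [Function.update_self])
      · change Function.update w t z t ∈ branchAt n
        rwa [Function.update_self]
      · intro t'
        by_cases h : t' = t
        · subst h
          rwa [Function.update_self]
        · rw [Function.update_of_ne h]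
          exact hc t')
    exact ⟨c', h1, h3⟩
  · refine ⟨c t, ⟨w t, hc t⟩, fun s hs z hz hzs => ?_⟩
    refine hS s hs (Function.update w t z) ?_ ?_ (by rwa [Function.update_self])
    · change Function.update w t z t₀ ∈ branchAt n
      rw [Function.update_of_ne (Ne.symm ht)]
      exact hw
    · intro t'
      by_cases h : t' = t
      · subst h
        rwa [Function.update_self]
      · rw [Function.update_of_ne h]
        exact hc t'

theorem indep_brW (t₀ : T) : Indep (brW D t₀) := by
  classical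
  intro c hc
  choose z hz using hc
  obtain ⟨n, y, hy1, hy2⟩ := exists_branch (c t₀) ⟨z t₀, hz t₀⟩
  refine ⟨n, Function.update z t₀ y, ?_, ?_⟩
  · change Function.update z t₀ y t₀ ∈ branchAt n
    rwa [Function.update_self]
  · intro t'
    by_cases h : t' = t₀
    · subst h
      rwa [Function.update_self]
    · rw [Function.update_of_ne h]
      exact hz t'

/-! ### The distinguished join of meets of joins -/

/-- The element `{z | z n ∈ val m k}` of the field. -/
def cylE (D : Type u) (n m k : ℕ) : fld D :=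
  ⟨cyl (n, Sum.inl (m, k)), BooleanSubalgebra.subset_closure (mem_range_self _)⟩

theorem mem_cylE {n m k : ℕ} {z : ℕ → Pt D} :
    z ∈ (cylE D n m k : Set (ℕ → Pt D)) ↔ z n ∈ val m k := Iff.rfl

/-- In the second product the join of the meets of the joins is `⊤`. -/
theorem isLUB_top (hκ : ℵ₀ ≤ κ) (t₀ : T) {u : ℕ → ℕ → alg κ (emb μ (brW D t₀))}
    {e : ℕ → alg κ (emb μ (brW D t₀))}
    (hu : ∀ n m, IsLUB (range fun k => cod κ (emb μ (brW D t₀)) t₀ (cylE D n m k)) (u n m))
    (he : ∀ n, IsGLB (range (u n)) (e n)) : IsLUB (range e) ⊤ := by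
  refine ⟨fun _ _ => le_top, fun z hz => ?_⟩
  have key : ∀ p : Sp μ (brW D t₀), p ∈ (z : RO (Sp μ (brW D t₀))).set := by
    intro p
    have hcount : #(range (u p.idx) : Set (alg κ (emb μ (brW D t₀)))) ≤ κ :=
      (countable_range _).le_aleph0.trans hκ
    have h1 := (isMHom_subtype (κ := κ) (G := ⋃ t, range (emb μ (brW D t₀) t))
      RO.exists_isLUB _ hcount).2 _ (he p.idx)
    have h2 : RO.reg {q : Sp μ (brW D t₀) | q.idx = p.idx} (isOpen_idx p.idx) ≤
        (msub κ (⋃ t, range (emb μ (brW D t₀) t))).subtype (e p.idx) := by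
      apply h1.2
      rintro _ ⟨_, ⟨m, rfl⟩, rfl⟩
      apply RO.reg_le
      intro q hq
      have h3 : cod κ (emb μ (brW D t₀)) t₀ (cylE D p.idx m ((q.pt t₀ p.idx).1 m)) ≤ u p.idx m :=
        (hu p.idx m).1 (mem_range_self _)
      refine @h3 q ?_
      change q.pt t₀ p.idx ∈ val m ((q.pt t₀ p.idx).1 m)
      refine ⟨rfl, fun r hr => ?_⟩
      have h4 : (q.pt t₀ q.idx).2 = none := q.mem
      have hq' : q.idx = p.idx := hq
      rw [hq'] at h4
      rw [h4] at hr
      simp at hr
    have h5 : e p.idx ≤ z := hz (mem_range_self _)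
    exact h5 (h2 (RO.subset_reg (isOpen_idx p.idx) rfl))
  change (⊤ : RO (Sp μ (brW D t₀))) ≤ (z : RO (Sp μ (brW D t₀)))
  intro p _
  exact key p

/-- There is no `κ`-homomorphism to a minimal product. -/
theorem no_hom (hκ : ℵ₀ ≤ κ) (hD : ℵ₀ < #D) {B B' : Type u} [BooleanAlgebra B]
    [BooleanAlgebra B'] (t₀ : T) {i : T → BoundedLatticeHom (fld D) B}
    {i' : T → BoundedLatticeHom (fld D) B'}
    (hinj : Function.Injective (i t₀))
    (hindep : ∀ T' : Set T, #T' < μ → ∀ a : T → fld D, (∀ t ∈ T', a t ≠ ⊥) →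
      ∃ m, IsGLB ((fun t => i t (a t)) '' T') m ∧ m ≠ ⊥)
    (hdense : IsDenseProduct μ i)
    {u : ℕ → ℕ → B'} {e : ℕ → B'}
    (hu : ∀ n m, IsLUB (range fun k => i' t₀ (cylE D n m k)) (u n m))
    (he : ∀ n, IsGLB (range (u n)) (e n)) (hE : IsLUB (range e) ⊤) :
    ¬ ∃ h : BoundedLatticeHom B' B, IsMHom κ h ∧ ∀ t a, h (i' t a) = i t a := by
  classical
  rintro ⟨h, hh, hi⟩
  have hcount : ∀ f : ℕ → B', #(range f) ≤ κ := fun f =>
    (countable_range _).le_aleph0.trans hκ
  have hu' : ∀ n m, IsLUB (range fun k => i t₀ (cylE D n m k)) (h (u n m)) := by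
    intro n m
    have h1 := (hh _ (hcount _)).1 _ (hu n m)
    rw [← range_comp] at h1
    have h2 : (h ∘ fun k => i' t₀ (cylE D n m k)) = fun k => i t₀ (cylE D n m k) := by
      funext k
      exact hi t₀ _
    rwa [h2] at h1
  have he' : ∀ n, IsGLB (range fun m => h (u n m)) (h (e n)) := by
    intro n
    have h1 := (hh _ (hcount _)).2 _ (he n)
    rw [← range_comp] at h1
    exact h1
  have hE' : IsLUB (range fun n => h (e n)) (h ⊤) := by
    have h1 := (hh _ (hcount _)).1 _ hE
    rw [← range_comp] at h1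
    exact h1
  have hbot : ∀ n, h (e n) = ⊥ := by
    intro n
    by_contra hne
    obtain ⟨T', c, g, hT', hg, hg0, hge⟩ := hdense _ hne
    have hcne : ∀ t ∈ T', c t ≠ ⊥ := by
      intro t ht h0
      apply hg0
      rw [eq_bot_iff]
      have := hg.1 ⟨t, ht, rfl⟩
      simp only [h0, map_bot] at this
      exact this
    let c0 : fld D := if t₀ ∈ T' then c t₀ else ⊤
    have hc0 : (c0 : Set (ℕ → Pt D)).Nonempty := by
      simp only [c0]
      split_ifs with h0
      · exact nonempty_of_ne_bot (hcne t₀ h0)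
      · exact ⟨fun _ => (fun _ => 0, none), trivial⟩
    obtain ⟨m, c', hc'1, hc'2, hc'3⟩ := exists_undefined hD c0 hc0 n
    obtain ⟨g', hg', hg'0⟩ := hindep (insert t₀ T')
      (lt_of_le_of_lt mk_insert_le (add_lt_of_lt hμ.out hT'
        (lt_of_lt_of_le one_lt_aleph0 hμ.out))) (Function.update c t₀ c') (by
        intro t ht
        by_cases h0 : t = t₀
        · subst h0
          rw [Function.update_self]
          exact ne_bot_of_nonempty hc'1
        · rw [Function.update_of_ne h0]
          exact hcne t (ht.resolve_left h0))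
    apply hg'0
    have h1 : g' ≤ i t₀ c' := by
      have := hg'.1 ⟨t₀, mem_insert _ _, rfl⟩
      simpa only [Function.update_self] using this
    have h2 : g' ≤ g := by
      apply hg.2
      rintro _ ⟨t, ht, rfl⟩
      by_cases h0 : t = t₀
      · subst h0
        refine h1.trans (OrderHomClass.mono _ ?_)
        simp only [c0, if_pos ht] at hc'2
        exact hc'2
      · have := hg'.1 ⟨t, mem_insert_of_mem _ ht, rfl⟩
        simpa only [Function.update_of_ne h0] using this
    have h3 : g' ≤ h (u n m) := (h2.trans hge).trans ((he' n).1 (mem_range_self m))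
    have h4 : h (u n m) ≤ (i t₀ c')ᶜ := by
      apply (hu' n m).2
      rintro _ ⟨k, rfl⟩
      rw [← map_compl']
      refine OrderHomClass.mono _ ?_
      intro z hz hz'
      exact hc'3 k z hz' hz
    rw [eq_bot_iff, ← inf_compl_eq_bot (a := i t₀ c')]
    exact le_inf h1 (h3.trans h4)
  have htop : (⊤ : B) = ⊥ := by
    rw [← map_top h, eq_bot_iff]
    apply hE'.2
    rintro _ ⟨n, rfl⟩
    exact (hbot n).le
  have h1 : (⊤ : fld D) = ⊥ := by
    apply hinj
    rw [map_top, map_bot, htop]
  have h2 : (fun _ => (fun _ => 0, none) : ℕ → Pt D) ∈ ((⊤ : fld D) : Set (ℕ → Pt D)) := trivial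
  rw [h1] at h2
  exact h2

end Pool.Agent.N612.BA
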