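import Pool.Agent.N612.BA.Defs

/-!
# The complete Boolean algebra of regular open sets
-/

namespace Pool.Agent.N612.BA

open Set Cardinal TopologicalSpace

universe u

variable {Y : Type u} [TopologicalSpace Y]

/-- The algebra of regular open sets. -/
abbrev RO (Y : Type u) [TopologicalSpace Y] : Type u := Heyting.Regular (Opens Y)

/-- The underlying set. -/
def RO.set (x : RO Y) : Set Y := ((x : Opens Y) : Set Y)

theorem RO.isOpen (x : RO Y) : IsOpen x.set := (x : Opens Y).2

theorem RO.le_iff {x y : RO Y} : x ≤ y ↔ x.set ⊆ y.set := Iff.rfl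

theorem RO.set_inf (x y : RO Y) : (x ⊓ y).set = x.set ∩ y.set := rfl

theorem RO.set_bot : (⊥ : RO Y).set = ∅ := rfl

theorem RO.nonempty {x : RO Y} (h : x ≠ ⊥) : x.set.Nonempty := by
  rw [nonempty_iff_ne_empty]
  intro h1
  apply h
  rw [eq_bot_iff, RO.le_iff, h1]
  exact empty_subset _

theorem RO.ne_bot {x : RO Y} {p : Y} (h : p ∈ x.set) : x ≠ ⊥ := by
  rintro rfl
  exact h

theorem RO.exists_of_not_le {x y : RO Y} (h : ¬ x ≤ y) : ∃ p, p ∈ x.set ∧ p ∈ (yᶜ).set := by
  have h1 : x ⊓ yᶜ ≠ ⊥ := by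
    intro h2
    apply h
    rw [← compl_compl y]
    exact le_compl_iff_disjoint_right.2 (disjoint_iff.2 h2)
  obtain ⟨p, hp⟩ := RO.nonempty h1
  exact ⟨p, hp.1, hp.2⟩

theorem RO.notMem_of_mem_compl {y : RO Y} {p : Y} (h : p ∈ (yᶜ).set) : p ∉ y.set := by
  intro h1
  have h3 : y ⊓ yᶜ ≤ ⊥ := BooleanAlgebra.inf_compl_le_bot y
  exact h3 (show p ∈ (y ⊓ yᶜ).set from ⟨h1, h⟩)

theorem RO.exists_isLUB (S : Set (RO Y)) : ∃ b, IsLUB S b := by
  refine ⟨Heyting.Regular.toRegular (sSup ((fun x : RO Y => (x : Opens Y)) '' S)), ?_, ?_⟩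
  · intro s hs
    have h1 : (s : Opens Y) ≤ sSup ((fun x : RO Y => (x : Opens Y)) '' S) :=
      le_sSup (mem_image_of_mem _ hs)
    have h2 := Heyting.Regular.toRegular.monotone h1
    rwa [Heyting.Regular.toRegular_coe] at h2
  · intro c hc
    have h1 : sSup ((fun x : RO Y => (x : Opens Y)) '' S) ≤ (c : Opens Y) := by
      apply sSup_le
      rintro _ ⟨s, hs, rfl⟩
      exact hc hs
    have h2 := Heyting.Regular.toRegular.monotone h1
    rwa [Heyting.Regular.toRegular_coe] at h2

/-- The regularization of an open set. -/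
def RO.reg (O : Set Y) (hO : IsOpen O) : RO Y := Heyting.Regular.toRegular ⟨O, hO⟩

theorem RO.subset_reg {O : Set Y} (hO : IsOpen O) : O ⊆ (RO.reg O hO).set := by
  have : (⟨O, hO⟩ : Opens Y) ≤ (RO.reg O hO : Opens Y) := by
    rw [RO.reg, Heyting.Regular.coe_toRegular]
    exact le_compl_compl
  exact this

theorem RO.reg_le {O : Set Y} (hO : IsOpen O) {x : RO Y} (h : O ⊆ x.set) : RO.reg O hO ≤ x := by
  have h1 : (⟨O, hO⟩ : Opens Y) ≤ (x : Opens Y) := h
  have h2 := Heyting.Regular.toRegular.monotone h1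
  rwa [Heyting.Regular.toRegular_coe] at h2

section

variable {A : Type u} [BooleanAlgebra A] (f : BoundedLatticeHom A (Set Y)) (hf : ∀ a, IsOpen (f a))

theorem isCompl_opens (a : A) : IsCompl (⟨f a, hf a⟩ : Opens Y) ⟨f aᶜ, hf aᶜ⟩ := by
  have h1 : IsCompl (f a) (f aᶜ) := by rw [map_compl']; exact isCompl_compl
  constructor
  · rw [disjoint_iff]
    apply Opens.ext
    exact disjoint_iff.1 h1.1
  · rw [codisjoint_iff]
    apply Opens.ext
    exact codisjoint_iff.1 h1.2

theorem isRegular_opens (a : A) : Heyting.IsRegular (⟨f a, hf a⟩ : Opens Y) := by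
  have h1 := (isCompl_opens f hf a).compl_eq
  have h2 := (isCompl_opens f hf a).symm.compl_eq
  rw [Heyting.IsRegular, h1, h2]

/-- A regular open set as an element of the algebra. -/
def mkRO (U : Opens Y) (h : Heyting.IsRegular U) : RO Y := ⟨U, h⟩

theorem coe_mkRO (U : Opens Y) (h : Heyting.IsRegular U) : (mkRO U h : Opens Y) = U := rfl

/-- A homomorphism to the power set with open values gives a homomorphism to the regular open
algebra. -/
def toRO : BoundedLatticeHom A (RO Y) where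
  toFun a := mkRO ⟨f a, hf a⟩ (isRegular_opens f hf a)
  map_sup' a b := by
    apply Heyting.Regular.coe_injective
    rw [Heyting.Regular.coe_sup, coe_mkRO, coe_mkRO, coe_mkRO]
    have h1 : (⟨f a, hf a⟩ : Opens Y) ⊔ ⟨f b, hf b⟩ = ⟨f (a ⊔ b), hf (a ⊔ b)⟩ := by
      apply Opens.ext
      simp only [Opens.coe_sup, Opens.coe_mk, map_sup]
      rfl
    rw [h1]
    exact (isRegular_opens f hf (a ⊔ b)).symm
  map_inf' a b := by
    apply Heyting.Regular.coe_injective
    apply Opens.ext
    change f (a ⊓ b) = f a ∩ f b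
    rw [map_inf]
    rfl
  map_top' := by
    apply Heyting.Regular.coe_injective
    rw [Heyting.Regular.coe_top, coe_mkRO]
    apply Opens.ext
    simp only [Opens.coe_top, Opens.coe_mk, map_top]
    rfl
  map_bot' := by
    apply Heyting.Regular.coe_injective
    rw [Heyting.Regular.coe_bot, coe_mkRO]
    apply Opens.ext
    simp only [Opens.coe_bot, Opens.coe_mk, map_bot]
    rfl

theorem toRO_set (a : A) : (toRO f hf a).set = f a := rfl

end

end Pool.Agent.N612.BA
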