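import Pool.Agent.N612.BA.RegOpen
import Pool.Agent.N612.BA.Field

/-!
# Spaces of points of `T → (ℕ → Pt D)` with the `< μ`-box topology
-/

namespace Pool.Agent.N612.BA

open Set Cardinal TopologicalSpace

universe u

variable {D T : Type u} {N : Type}

/-- The disjoint union of the sets `W n`. -/
structure Sp (μ : Cardinal.{u}) (W : N → Set (T → ℕ → Pt D)) : Type u where
  /-- the index of the piece -/
  idx : N
  /-- the point -/
  pt : T → ℕ → Pt D
  mem : pt ∈ W idx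

/-- Being in the box of `c`. -/
def InBox (c : T → fld D) (w : T → ℕ → Pt D) : Prop := ∀ t, w t ∈ (c t : Set (ℕ → Pt D))

/-- A box with fewer than `μ` restricted coordinates. -/
def Small (μ : Cardinal.{u}) (c : T → fld D) : Prop := #{t // c t ≠ ⊤} < μ

theorem inBox_top (w : T → ℕ → Pt D) : InBox (fun _ => (⊤ : fld D)) w := fun _ => trivial

theorem inBox_inf {c c' : T → fld D} {w : T → ℕ → Pt D} :
    InBox (fun t => c t ⊓ c' t) w ↔ InBox c w ∧ InBox c' w :=
  ⟨fun h => ⟨fun t => (h t).1, fun t => (h t).2⟩, fun h t => ⟨h.1 t, h.2 t⟩⟩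

theorem small_top {μ : Cardinal.{u}} (hμ : ℵ₀ ≤ μ) : Small μ (fun _ : T => (⊤ : fld D)) := by
  have : IsEmpty {t : T // (⊤ : fld D) ≠ ⊤} := ⟨fun x => x.2 rfl⟩
  rw [Small, mk_eq_zero]
  exact lt_of_lt_of_le aleph0_pos hμ

theorem small_inf {μ : Cardinal.{u}} (hμ : ℵ₀ ≤ μ) {c c' : T → fld D} (hc : Small μ c)
    (hc' : Small μ c') : Small μ (fun t => c t ⊓ c' t) := by
  have h1 : {t | c t ⊓ c' t ≠ ⊤} ⊆ {t | c t ≠ ⊤} ∪ {t | c' t ≠ ⊤} := by
    intro t ht
    by_contra h
    rw [mem_union, not_or] at h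
    simp only [Set.mem_ofPred_eq, not_not] at h
    apply ht
    rw [h.1, h.2, inf_top_eq]
  exact lt_of_le_of_lt ((mk_le_mk_of_subset h1).trans (mk_union_le _ _)) (add_lt_of_lt hμ hc hc')

instance topSp {μ : Cardinal.{u}} [hμ : Fact (ℵ₀ ≤ μ)] (W : N → Set (T → ℕ → Pt D)) :
    TopologicalSpace (Sp μ W) where
  IsOpen O := ∀ p ∈ O, ∃ c : T → fld D, Small μ c ∧ InBox c p.pt ∧
    ∀ q : Sp μ W, q.idx = p.idx → InBox c q.pt → q ∈ O
  isOpen_univ := fun p _ => ⟨fun _ => ⊤, small_top hμ.out, inBox_top _, fun _ _ _ => trivial⟩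
  isOpen_inter := by
    rintro O O' hO hO' p ⟨hp, hp'⟩
    obtain ⟨c, hc, hcp, h⟩ := hO p hp
    obtain ⟨c', hc', hcp', h'⟩ := hO' p hp'
    exact ⟨fun t => c t ⊓ c' t, small_inf hμ.out hc hc', inBox_inf.2 ⟨hcp, hcp'⟩,
      fun q hq hqc => ⟨h q hq (inBox_inf.1 hqc).1, h' q hq (inBox_inf.1 hqc).2⟩⟩
  isOpen_sUnion := by
    rintro 𝒪 h𝒪 p ⟨O, hO, hp⟩
    obtain ⟨c, hc, hcp, h⟩ := h𝒪 O hO p hp
    exact ⟨c, hc, hcp, fun q hq hqc => ⟨O, hO, h q hq hqc⟩⟩

section

variable {μ : Cardinal.{u}} [hμ : Fact (ℵ₀ ≤ μ)] {W : N → Set (T → ℕ → Pt D)}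

theorem isOpen_sp {O : Set (Sp μ W)} : IsOpen O ↔ ∀ p ∈ O, ∃ c : T → fld D, Small μ c ∧
    InBox c p.pt ∧ ∀ q : Sp μ W, q.idx = p.idx → InBox c q.pt → q ∈ O := Iff.rfl

theorem isOpen_box {c : T → fld D} (hc : Small μ c) : IsOpen {p : Sp μ W | InBox c p.pt} := by
  rw [isOpen_sp]
  intro p hp
  exact ⟨c, hc, hp, fun q _ hq => hq⟩

theorem isOpen_idx (n : N) : IsOpen {p : Sp μ W | p.idx = n} := by
  rw [isOpen_sp]
  intro p hp
  exact ⟨fun _ => ⊤, small_top hμ.out, inBox_top _, fun q hq _ => hq.trans hp⟩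

variable (μ W) in
/-- The homomorphism to the power set. -/
def preHom (t : T) : BoundedLatticeHom (fld D) (Set (Sp μ W)) where
  toFun a := {p | p.pt t ∈ (a : Set (ℕ → Pt D))}
  map_sup' _ _ := rfl
  map_inf' _ _ := rfl
  map_top' := rfl
  map_bot' := rfl

theorem isOpen_preHom [DecidableEq T] (t : T) (a : fld D) : IsOpen (preHom μ W t a) := by
  rw [isOpen_sp]
  intro p hp
  refine ⟨Function.update (fun _ => ⊤) t a, ?_, ?_, ?_⟩
  · have h1 : {t' | Function.update (fun _ : T => (⊤ : fld D)) t a t' ≠ ⊤} ⊆ {t} := by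
      intro t' ht'
      by_contra h
      apply ht'
      rw [Function.update_of_ne h]
    refine lt_of_le_of_lt (mk_le_mk_of_subset h1) ?_
    rw [mk_singleton]
    exact lt_of_lt_of_le one_lt_aleph0 hμ.out
  · intro t'
    by_cases h : t' = t
    · subst h
      rw [Function.update_self]
      exact hp
    · rw [Function.update_of_ne h]
      trivial
  · intro q _ hq
    have := hq t
    rw [Function.update_self] at this
    exact this

open Classical in
variable (μ W) in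
/-- The embedding of the factor `t` in the algebra of regular open sets. -/
noncomputable def emb (t : T) : BoundedLatticeHom (fld D) (RO (Sp μ W)) :=
  toRO (preHom μ W t) (isOpen_preHom t)

theorem mem_emb {t : T} {a : fld D} {p : Sp μ W} :
    p ∈ (emb μ W t a).set ↔ p.pt t ∈ (a : Set (ℕ → Pt D)) := Iff.rfl

/-- The condition which makes the embeddings preserve joins. -/
def Good (κ : Cardinal.{u}) (W : N → Set (T → ℕ → Pt D)) : Prop :=
  ∀ n, ∀ c : T → fld D, ∀ w ∈ W n, InBox c w → ∀ t, ∀ S : Set (fld D), #S ≤ κ →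
    (∀ s ∈ S, ∀ w' ∈ W n, InBox c w' → w' t ∉ (s : Set (ℕ → Pt D))) →
    ∃ c' : fld D, (c' : Set (ℕ → Pt D)).Nonempty ∧
      ∀ s ∈ S, ∀ z ∈ (c' : Set (ℕ → Pt D)), z ∉ (s : Set (ℕ → Pt D))

/-- The condition which makes the images independent. -/
def Indep (W : N → Set (T → ℕ → Pt D)) : Prop :=
  ∀ c : T → fld D, (∀ t, (c t : Set (ℕ → Pt D)).Nonempty) → ∃ n, ∃ w ∈ W n, InBox c w

theorem isMHom_emb {κ : Cardinal.{u}} (hκ : ℵ₀ ≤ κ) (hW : Good κ W) (t : T) :
    IsMHom κ (emb μ W t) := by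
  apply isMHom_of_lub
  intro S hS a ha
  refine ⟨?_, ?_⟩
  · rintro _ ⟨s, hs, rfl⟩
    exact OrderHomClass.mono _ (ha.1 hs)
  · intro z hz
    by_contra hcon
    obtain ⟨p, hp1, hp2⟩ := RO.exists_of_not_le hcon
    obtain ⟨c, -, hcp, hc⟩ := (isOpen_sp (O := (emb μ W t a).set ∩ (zᶜ).set)).1
      ((RO.isOpen _).inter (RO.isOpen _)) p ⟨hp1, hp2⟩
    obtain ⟨c', ⟨x, hx⟩, hc'⟩ := hW p.idx c p.pt p.mem hcp t (insert aᶜ S)
      ((mk_insert_le).trans (add_le_of_le hκ hS (one_lt_aleph0.le.trans hκ))) (by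
        intro s hs w' hw' hcw'
        have hq := hc ⟨p.idx, w', hw'⟩ rfl hcw'
        rcases hs with rfl | hs
        · exact fun h => h hq.1
        · intro h
          refine RO.notMem_of_mem_compl hq.2 (hz (mem_image_of_mem _ hs) ?_)
          exact h)
    have hca : c' ≤ a := by
      intro x hx
      by_contra h
      exact hc' aᶜ (mem_insert _ _) x hx h
    have hub : a ⊓ c'ᶜ ∈ upperBounds S := by
      intro s hs
      refine le_inf (ha.1 hs) ?_
      intro x hx hx'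
      exact hc' s (mem_insert_of_mem _ hs) x hx' hx
    exact (ha.2 hub (hca hx)).2 hx

theorem emb_injective (hW : Indep W) (t : T) : Function.Injective (emb μ W t) := by
  classical
  refine injective_of_ker fun a ha => ?_
  by_contra hne
  have hne' : (a : Set (ℕ → Pt D)).Nonempty := by
    rw [nonempty_iff_ne_empty]
    intro h
    exact hne (Subtype.ext h)
  obtain ⟨n, w, hw, hb⟩ := hW (Function.update (fun _ => ⊤) t a) (by
    intro t'
    by_cases h : t' = t
    · subst h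
      rw [Function.update_self]; exact hne'
    · rw [Function.update_of_ne h]
      exact ⟨hne'.some, trivial⟩)
  have h1 : (⟨n, w, hw⟩ : Sp μ W) ∈ (emb μ W t a).set := by
    rw [mem_emb]
    have := hb t
    rwa [Function.update_self] at this
  rw [ha] at h1
  exact h1

end

end Pool.Agent.N612.BA
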